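import Mathlib
import Pool.Agent.H12.HD.Cof

/-!
# Descent of cyclic Hadamard difference sets to the cofactor of a large prime power

If `w = m p^b` and `4w-1 = u q^c` with a prime `q ≥ (4m)^(K(m) u (u+1))`, then a cyclic Hadamard
difference set of order `4w-1` gives one of order `u`.
-/

set_option autoImplicit false

namespace Pool.Agent.Results.MP_76589c_co.CofactorDescent

open Finset

/-- there is a cyclic Hadamard difference set of order `4w-1`: a set `D ⊆ ℤ/(4w-1)` with `2w-1`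
elements such that every nonzero residue is a difference `x - y` with `x, y ∈ D` in exactly `w-1`
ways -/
def HasSet (w : ℕ) : Prop :=
  ∃ D : Finset (ZMod (4 * w - 1)), D.card = 2 * w - 1 ∧
    ∀ d : ZMod (4 * w - 1), d ≠ 0 →
      ((D ×ˢ D).filter (fun t => t.1 - t.2 = d)).card = w - 1

theorem transport {v w : ℕ} (hw : 0 < w) (hv : v = 4 * w - 1)
    (h : ∃ D : Finset (ZMod v), Pool.Agent.H12.HD.IsHDS w D) : HasSet w := by
  subst hv
  obtain ⟨D, hD, hrep⟩ := h
  refine ⟨D, by omega, fun d hd => ?_⟩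
  have := hrep d hd
  omega

theorem result : ∃ K : ℕ → ℕ, K 1 = 1 ∧
    ∀ m u p b q c w : ℕ, 1 ≤ m → 1 < u → p.Prime → q.Prime → 1 ≤ c → w = m * p ^ b →
      4 * w = u * q ^ c + 1 → (4 * m) ^ (K m * u * (u + 1)) ≤ q → HasSet w →
      ∃ w' : ℕ, 1 ≤ w' ∧ 4 * w' = u + 1 ∧ HasSet w' := by
  refine ⟨Pool.Agent.H12.HD.K, by unfold Pool.Agent.H12.HD.K; simp, ?_⟩
  intro m u p b q c w hm hu hp hq hc hw hv hbig h
  obtain ⟨D, hD, hrep⟩ := h
  have hw0 : 0 < w := by omega
  have htr : ∀ v : ℕ, v = u * q ^ c → (∃ D : Finset (ZMod v), Pool.Agent.H12.HD.IsHDS w D) →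
      ∃ D : Finset (ZMod (u * q ^ c)), Pool.Agent.H12.HD.IsHDS w D := by
    rintro v rfl h
    exact h
  obtain ⟨D', hD'⟩ := htr (4 * w - 1) (by omega) ⟨D, by omega, fun d hd => by
    rw [hrep d hd]; omega⟩
  obtain ⟨w', hw', hu', h'⟩ := Pool.Agent.H12.HD.cofactor hu hp hq hc hv.symm hw
    (Pool.Agent.H12.HD.cofactor_big hm (by omega) hbig) D' hD'
  exact ⟨w', hw', hu'.symm, transport hw' (by omega) h'⟩

end Pool.Agent.Results.MP_76589c_co.CofactorDescent
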