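import Mathlib
import Pool.Agent.H12.GS.Main

/-!
# Golomb's conjecture for orders with a large prime factor `q`, `(q-1)/2` or `(q-1)/4` prime

If `4w-1` has a prime factor `q = 2 n + 1`, `n` prime, with `4w-1 < q (2 q + 3)`, or a prime factor
`q = 4 n + 1`, `n` prime, with `4w-1 < q (q - 2)`, and there is a cyclic Hadamard difference set of
order `4w-1`, then `4w-1` is prime, or a product of twin primes, or `w` is a power of `2`.

Ingredients: the second multiplier theorem and Mann's test give `n` multipliers `t ≡ 1` modulo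
`u = (4w-1)/q`; the half sums of the difference set over the orbits in the fibres over `ℤ/u` have
all nontrivial autocorrelations equal to `0` (they are integers of absolute value less than `1`);
what remains for `(q-1)/2` prime is a circulant conference matrix of order `u`, and its order is
shown to be prime.
-/

set_option autoImplicit false

namespace Pool.Agent.Results.MP_76589c_co.LargePrimeFactor

open Finset

theorem result : ∀ w q : ℕ, 1 ≤ w → q.Prime → q ∣ 4 * w - 1 →
    ((∃ n : ℕ, n.Prime ∧ q = 2 * n + 1 ∧ 4 * w - 1 < q * (2 * q + 3)) ∨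
      (∃ n : ℕ, n.Prime ∧ q = 4 * n + 1 ∧ 4 * w - 1 < q * (q - 2))) →
    (∃ D : Finset (ZMod (4 * w - 1)), D.card = 2 * w - 1 ∧
      ∀ d : ZMod (4 * w - 1), d ≠ 0 →
        ((D ×ˢ D).filter (fun t => t.1 - t.2 = d)).card = w - 1) →
    (4 * w - 1).Prime ∨ (∃ p : ℕ, p.Prime ∧ (p + 2).Prime ∧ 4 * w - 1 = p * (p + 2)) ∨
      ∃ m : ℕ, w = 2 ^ m := by
  rintro w q hw hq hqw h ⟨D, hD, hrep⟩
  refine Pool.Agent.H12.GS.main (by omega) hq hqw h ⟨D, by omega, fun d hd => ?_⟩
  rw [hrep d hd]
  omega

end Pool.Agent.Results.MP_76589c_co.LargePrimeFactor
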