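import Mathlib
import Pool.Agent.H12.HD.U4

/-!
# A power saving for cyclic Hadamard difference sets of composite order

For all `w`: among the `w ≤ X` for which `4w-1` has a proper prime factor `q = a n + 1`, `n` prime,
`n ≥ X^(1/3+δ)` and `q ≤ X^(2/3)` or `a q ≤ X^(1-δ)` or `a ≤ X^(1/4-δ)`, all but `C X^(1-δ/2)` carry
no cyclic Hadamard difference set.

Ingredients: the second multiplier theorem for the primes dividing `w`; a descent of the difference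
set to the sums over the fibres of `ℤ/(uq) → ℤ/u`, which gives the equation
`a (u - 1) = 4 (n M + J)` with integers `M ≥ 1`, `|J| ≤ M`; counting.
-/

set_option autoImplicit false

namespace Pool.Agent.Results.MP_76589c_co.PowerSaving

open Finset

/-- there is a cyclic Hadamard difference set of order `4w-1`: a set `D ⊆ ℤ/(4w-1)` with `2w-1`
elements such that every nonzero residue is a difference `x - y` with `x, y ∈ D` in exactly `w-1`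
ways -/
def HasSet (w : ℕ) : Prop :=
  ∃ D : Finset (ZMod (4 * w - 1)), D.card = 2 * w - 1 ∧
    ∀ d : ZMod (4 * w - 1), d ≠ 0 →
      ((D ×ˢ D).filter (fun t => t.1 - t.2 = d)).card = w - 1

/-- the `w` with `1 ≤ w ≤ X` such that `4w-1` has a prime factor `q ≠ 4w-1` and `q - 1` has a prime
factor `n` with `n ≥ X^(1/3+δ)`, where `q ≤ X^(2/3)` or `a = (q-1)/n` satisfies `a q ≤ X^(1-δ)` or
`a ≤ X^(1/4-δ)` -/
def Family (δ : ℝ) (X : ℕ) : Set ℕ :=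
  {w | 0 < w ∧ w ≤ X ∧ ∃ q a n : ℕ, q.Prime ∧ n.Prime ∧ q = a * n + 1 ∧
    q ∣ 4 * w - 1 ∧ q ≠ 4 * w - 1 ∧ (X : ℝ) ^ (1 / 3 + δ) ≤ n ∧
    ((q : ℝ) ≤ (X : ℝ) ^ (2 / 3 : ℝ) ∨ (a : ℝ) * q ≤ (X : ℝ) ^ (1 - δ) ∨
      (a : ℝ) ≤ (X : ℝ) ^ (1 / 4 - δ))}

theorem hit_of {w q a n : ℕ} (hw : 0 < w) (hqa : q = a * n + 1) (hd : q ∣ 4 * w - 1)
    (hne : q ≠ 4 * w - 1) (h : HasSet w) : Pool.Agent.H12.HD.Hit a n w := by
  subst hqa
  obtain ⟨D, hD, hrep⟩ := h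
  refine ⟨hw, hd, hne, D, by omega, fun d hd => ?_⟩
  rw [hrep d hd]
  omega

/-- the condition on `a` is automatic for `q ≤ X^(2/3)` -/
theorem auto {δ : ℝ} {X q a n : ℕ} (hX : 0 < X) (hqa : q = a * n + 1)
    (hn : (X : ℝ) ^ (1 / 3 + δ) ≤ n) (hq : (q : ℝ) ≤ (X : ℝ) ^ (2 / 3 : ℝ)) :
    (a : ℝ) * q ≤ (X : ℝ) ^ (1 - δ) := by
  have hX0 : (0 : ℝ) < X := by exact_mod_cast hX
  have h1 : (a : ℝ) * n ≤ q := by
    rw [hqa]
    push_cast
    linarith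
  have h2 : (a : ℝ) * (X : ℝ) ^ (1 / 3 + δ) ≤ (X : ℝ) ^ (2 / 3 : ℝ) :=
    (mul_le_mul_of_nonneg_left hn (Nat.cast_nonneg a)).trans (h1.trans hq)
  have h3 : (X : ℝ) ^ (2 / 3 : ℝ) = (X : ℝ) ^ (1 / 3 - δ) * (X : ℝ) ^ (1 / 3 + δ) := by
    rw [← Real.rpow_add hX0]
    congr 1
    ring
  rw [h3] at h2
  have h4 : (a : ℝ) ≤ (X : ℝ) ^ (1 / 3 - δ) := le_of_mul_le_mul_right h2 (by positivity)
  calc (a : ℝ) * q ≤ (X : ℝ) ^ (1 / 3 - δ) * (X : ℝ) ^ (2 / 3 : ℝ) :=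
        mul_le_mul h4 hq (Nat.cast_nonneg q) (by positivity)
    _ = (X : ℝ) ^ (1 - δ) := by
        rw [← Real.rpow_add hX0]
        congr 1
        ring

theorem result : ∀ δ : ℝ, 0 < δ → δ ≤ 1 / 3 →
    ∃ C : ℝ, ∀ X : ℕ, 1 ≤ X →
      (({w ∈ Family δ X | HasSet w}.ncard : ℕ) : ℝ) ≤ C * (X : ℝ) ^ (1 - δ / 2) := by
  intro δ hδ hδ3
  obtain ⟨C, -, hC⟩ := Pool.Agent.H12.HD.theoremU hδ hδ3
  refine ⟨C, fun X hX => ?_⟩
  have hfin : {w ∈ Family δ X | HasSet w}.Finite := by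
    refine (Set.finite_Icc 1 X).subset ?_
    rintro w ⟨hw, -⟩
    exact ⟨hw.1, hw.2.1⟩
  rw [Set.ncard_eq_toFinset_card _ hfin]
  refine hC X hX _ fun w hw => ?_
  rw [Set.Finite.mem_toFinset] at hw
  obtain ⟨⟨hw0, hwX, q, a, n, hq, hn, hqa, hd, hne, hnX, hE⟩, hs⟩ := hw
  have ha : 0 < a := by
    rcases Nat.eq_zero_or_pos a with h | h
    · rw [h, zero_mul] at hqa
      have := hq.two_le
      omega
    · exact h
  refine ⟨hwX, a, n, ha, hn, by rw [← hqa]; exact hq, hit_of hw0 hqa hd hne hs, hnX, ?_⟩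
  have hE' : (a : ℝ) * q ≤ (X : ℝ) ^ (1 - δ) ∨ (a : ℝ) ≤ (X : ℝ) ^ (1 / 4 - δ) := by
    rcases hE with h | h | h
    · exact Or.inl (auto (by omega) hqa hnX h)
    · exact Or.inl h
    · exact Or.inr h
  rw [hqa] at hE'
  push_cast at hE'
  exact hE'

end Pool.Agent.Results.MP_76589c_co.PowerSaving
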