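import Mathlib
import Pool.Agent.H95.Gol.Main
import Pool.Agent.H49.Gol.Weight
import Pool.Agent.H49.Gol.PrimesLower
import Pool.Agent.H57.Gol.FixedD
import Pool.Agent.H66.Gol.Blk
import Pool.Agent.H66.Gol.Paley
import Pool.Agent.H88.Gol.Mann
import Pool.Agent.H97.Gol.Even

/-!
# One hundred percent of the orders of cyclic Hadamard difference sets are prime

Among the orders `4w-1`, `w ≤ W`, of cyclic Hadamard difference sets, the proportion of the prime
ones tends to `1` as `W → ∞`: the composite orders are `o(W / log W)` in number, while every prime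
`4w-1` is an order (Paley).  The same holds for difference sets in arbitrary groups of order `4w-1`
and for Hadamard designs on `4w-1` points having, for every prime `p` dividing `4w-1`, an
automorphism of order `p` with an even number of fixed points.
-/

namespace Pool.Agent.Results.MP_76589c_co.RealisedOrdersPrime

open Finset Filter Topology Pool.Agent.H96.Sing

/-- the `w` with `1 ≤ w ≤ W` for which `4w-1` is prime -/
def primeOrders (W : ℕ) : Set ℕ := {w | 0 < w ∧ w ≤ W ∧ (4 * w - 1).Prime}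

/-- the `w` with `1 ≤ w ≤ W` for which there is a cyclic Hadamard difference set of order `4w-1`:
a set `D ⊆ ℤ/(4w-1)` with `2w-1` elements such that every nonzero residue is a difference `x - y`
with `x, y ∈ D` in exactly `w-1` ways -/
def cyclicOrders (W : ℕ) : Set ℕ :=
  {w | 0 < w ∧ w ≤ W ∧ ∃ D : Finset (ZMod (4 * w - 1)), D.card = 2 * w - 1 ∧
    ∀ d : ZMod (4 * w - 1), d ≠ 0 →
      ((D ×ˢ D).filter (fun t => t.1 - t.2 = d)).card = w - 1}

/-- the `w` with `1 ≤ w ≤ W` for which some (not necessarily abelian) group of order `4w-1` has a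
difference set with `2w-1` elements and parameter `w-1` -/
def groupOrders (W : ℕ) : Set ℕ :=
  {w | 0 < w ∧ w ≤ W ∧ ∃ (G : Type) (_ : Group G) (D : Finset G),
    Nat.card G = 4 * w - 1 ∧ D.card = 2 * w - 1 ∧ IsDifferenceSet G D (w - 1)}

/-- the `w` with `1 ≤ w ≤ W` for which there is a symmetric `(4w-1, 2w-1, w-1)`-design having, for
every prime `p` dividing `4w-1`, an automorphism of order `p` with an even number of fixed points -/
def designOrders (W : ℕ) : Set ℕ :=
  {w | 0 < w ∧ w ≤ W ∧ ∃ B : Fin (4 * w - 1) → Finset (Fin (4 * w - 1)),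
    IsSymmetricDesign (4 * w - 1) (2 * w - 1) (w - 1) B ∧
    ∀ p : ℕ, p.Prime → p ∣ 4 * w - 1 →
      ∃ s, IsAut B s ∧ orderOf s = p ∧ Even (univ.filter (fun x => s x = x)).card}

lemma prime_sub (W : ℕ) : primeOrders W ⊆ cyclicOrders W := by
  rintro w ⟨hw, hwW, hp⟩
  refine ⟨hw, hwW, ?_⟩
  obtain ⟨D, h1, h2⟩ := Pool.Agent.H66.Gol.paley w hw hp
  exact ⟨D, h1, fun d hd => h2 d hd⟩

lemma cyclic_sub (W : ℕ) : cyclicOrders W ⊆ groupOrders W := by
  rintro w ⟨hw, hwW, D, hD, h⟩
  have hne : NeZero (4 * w - 1) := ⟨by omega⟩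
  refine ⟨hw, hwW, Multiplicative (ZMod (4 * w - 1)), inferInstance,
    D.map Multiplicative.ofAdd.toEmbedding, ?_, ?_, ?_⟩
  · rw [Nat.card_eq_fintype_card, Fintype.card_multiplicative, ZMod.card]
  · rw [card_map, hD]
  · intro g hg
    have hg' : Multiplicative.toAdd g ≠ 0 := by
      intro h
      exact hg (Multiplicative.toAdd.injective h)
    rw [← h _ hg', ← Set.ncard_coe_finset]
    refine Set.ncard_congr (fun t _ => (Multiplicative.toAdd t.1, Multiplicative.toAdd t.2)) ?_ ?_ ?_
    · rintro ⟨a, b⟩ ⟨h1, h2, h3⟩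
      simp only [mem_map_equiv] at h1 h2
      simp only [coe_filter, mem_product]
      refine ⟨⟨h1, h2⟩, ?_⟩
      simp only at h3 ⊢
      rw [← h3]
      simp [sub_eq_add_neg]
    · rintro ⟨a, b⟩ ⟨a', b'⟩ _ _ hab
      simpa using hab
    · rintro ⟨a, b⟩ hab
      simp only [coe_filter, mem_product] at hab
      obtain ⟨⟨h1, h2⟩, h3⟩ := hab
      refine ⟨(Multiplicative.ofAdd a, Multiplicative.ofAdd b), ⟨?_, ?_, ?_⟩, rfl⟩
      · simpa using h1
      · simpa using h2
      · simp only at h3 ⊢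
        rw [← ofAdd_neg, ← ofAdd_add, ← sub_eq_add_neg, h3]
        rfl

lemma group_sub (W : ℕ) : groupOrders W ⊆ designOrders W := by
  rintro w ⟨hw, hwW, G, _, D, hG, hD, h⟩
  refine ⟨hw, hwW, ?_⟩
  have : Finite G := by
    apply Nat.finite_of_card_ne_zero
    omega
  obtain ⟨B, hB, hfree⟩ := design_of_diffSet G D (w - 1) h (by omega)
  rw [hD] at hB
  revert B
  rw [hG]
  intro B hB hfree
  refine ⟨B, hB, fun p hp hpw => ?_⟩
  obtain ⟨s, h1, h2, h3⟩ := hfree p hp hpw
  refine ⟨s, h1, ?_, ?_⟩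
  · have hs1 : s ≠ 1 := by
      rintro rfl
      exact h3 ⟨0, by omega⟩ rfl
    have : Fact p.Prime := ⟨hp⟩
    exact orderOf_eq_prime h2 hs1
  · have : (Finset.univ.filter (fun x => s x = x)) = ∅ := by
      rw [Finset.filter_eq_empty_iff]
      intro x _
      exact h3 x
    rw [this]; simp

lemma design_good {W w : ℕ} (h : w ∈ designOrders W) :
    0 < w ∧ w ≤ W ∧ Pool.Agent.H95.Gol.Good w := by
  obtain ⟨hw, hwW, B, hB, haut⟩ := h
  exact ⟨hw, hwW, Pool.Agent.H88.Gol.good_of_even w hw B hB haut⟩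

lemma exceptional_sub (W : ℕ) :
    designOrders W \ primeOrders W ⊆ (Pool.Agent.H95.Gol.Sset W : Set ℕ) := by
  rintro w ⟨h1, h2⟩
  obtain ⟨hw, hwW, hG⟩ := design_good h1
  unfold Pool.Agent.H95.Gol.Sset
  simp only [coe_filter, mem_Icc]
  exact ⟨⟨hw, hwW⟩, hG, fun hp => h2 ⟨hw, hwW, hp⟩⟩

lemma finite_le {s : Set ℕ} (W : ℕ) (h : ∀ w ∈ s, w ≤ W) : s.Finite :=
  (Set.finite_Iic W).subset fun w hw => h w hw

/-- the main estimate -/
lemma exceptional_small (ε : ℝ) (hε : 0 < ε) :
    ∀ᶠ W : ℕ in atTop, ((designOrders W \ primeOrders W).ncard : ℝ) ≤ ε * W / Real.log W := by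
  obtain ⟨A, hA, h⟩ := Pool.Agent.H95.Gol.main_scale Pool.Agent.H66.Gol.blk
    (fun s hs => Pool.Agent.H49.Gol.weight s hs) Pool.Agent.H57.Gol.fixedD
    Pool.Agent.H97.Gol.evenOrder
  have h2 := Pool.Agent.H95.Gol.main_of_scale A hA
    (fun W => ((Pool.Agent.H95.Gol.Sset W).card : ℝ)) h ε hε
  filter_upwards [h2] with W hW
  refine le_trans (Nat.cast_le.mpr ?_) hW
  rw [← Set.ncard_coe_finset]
  exact Set.ncard_le_ncard (exceptional_sub W) (Finset.finite_toSet _)

lemma prime_large : ∃ c : ℝ, 0 < c ∧ ∀ᶠ W : ℕ in atTop,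
    c * W / Real.log W ≤ ((primeOrders W).ncard : ℝ) := by
  obtain ⟨c, hc, h⟩ := Pool.Agent.H49.Gol.primes_lower
  refine ⟨c, hc, ?_⟩
  filter_upwards [h] with W hW
  refine hW.trans (Nat.cast_le.mpr ?_)
  rw [← Set.ncard_coe_finset]
  refine Set.ncard_le_ncard ?_ (finite_le W fun w hw => hw.2.1)
  intro w hw
  simp only [coe_filter, mem_Icc] at hw
  exact ⟨hw.1.1, hw.1.2, hw.2⟩

/-- the ratio tends to one for every family between the primes and `designOrders` -/
lemma ratio (X : ℕ → Set ℕ) (h1 : ∀ W, primeOrders W ⊆ X W) (h2 : ∀ W, X W ⊆ designOrders W) :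
    Tendsto (fun W : ℕ => ((primeOrders W).ncard : ℝ) / (X W).ncard) atTop (𝓝 1) := by
  obtain ⟨c, hc, hlow⟩ := prime_large
  have hfin : ∀ W, (X W).Finite := fun W => finite_le W fun w hw => (h2 W hw).2.1
  rw [Metric.tendsto_nhds]
  intro ε hε
  filter_upwards [hlow, exceptional_small (c * ε / 2) (by positivity), eventually_ge_atTop 2]
    with W hP hS hW2
  have hW1 : (1:ℝ) < W := by exact_mod_cast (by omega : 1 < W)
  have hlog : 0 < Real.log W := Real.log_pos hW1
  have hP0 : 0 < ((primeOrders W).ncard : ℝ) := lt_of_lt_of_le (by positivity) hP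
  have hle : ((primeOrders W).ncard : ℝ) ≤ (X W).ncard :=
    Nat.cast_le.mpr (Set.ncard_le_ncard (h1 W) (hfin W))
  have hX : ((X W).ncard : ℝ) ≤ (primeOrders W).ncard + (designOrders W \ primeOrders W).ncard := by
    have h3 : (X W).ncard = (X W ∩ primeOrders W).ncard + (X W \ primeOrders W).ncard :=
      (Set.ncard_inter_add_ncard_sdiff_eq_ncard (X W) (primeOrders W) (hfin W)).symm
    have h4 : (X W ∩ primeOrders W).ncard ≤ (primeOrders W).ncard :=
      Set.ncard_le_ncard Set.inter_subset_right (finite_le W fun w hw => hw.2.1)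
    have h5 : (X W \ primeOrders W).ncard ≤ (designOrders W \ primeOrders W).ncard :=
      Set.ncard_le_ncard (Set.sdiff_subset_sdiff_left (h2 W))
        (finite_le W fun w hw => hw.1.2.1)
    exact_mod_cast (by omega : (X W).ncard ≤
      (primeOrders W).ncard + (designOrders W \ primeOrders W).ncard)
  have hSP : ((designOrders W \ primeOrders W).ncard : ℝ) ≤ ε / 2 * (primeOrders W).ncard := by
    refine hS.trans ?_
    have : c * ε / 2 * W / Real.log W = ε / 2 * (c * W / Real.log W) := by ring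
    rw [this]
    exact mul_le_mul_of_nonneg_left hP (by positivity)
  rw [Real.dist_eq, abs_sub_comm, abs_of_nonneg]
  · rw [sub_lt_iff_lt_add, ← sub_lt_iff_lt_add', lt_div_iff₀ (by linarith)]
    nlinarith
  · rw [sub_nonneg, div_le_one (by linarith)]
    exact hle

theorem result :
    (∀ W, primeOrders W ⊆ cyclicOrders W ∧ cyclicOrders W ⊆ groupOrders W ∧
      groupOrders W ⊆ designOrders W) ∧
    Tendsto (fun W : ℕ => ((designOrders W \ primeOrders W).ncard : ℝ) / (W / Real.log W))
      atTop (𝓝 0) ∧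
    Tendsto (fun W : ℕ => ((primeOrders W).ncard : ℝ) / (cyclicOrders W).ncard) atTop (𝓝 1) ∧
    Tendsto (fun W : ℕ => ((primeOrders W).ncard : ℝ) / (designOrders W).ncard) atTop (𝓝 1) := by
  refine ⟨fun W => ⟨prime_sub W, cyclic_sub W, group_sub W⟩, ?_, ?_, ?_⟩
  · rw [Metric.tendsto_nhds]
    intro ε hε
    filter_upwards [exceptional_small (ε / 2) (by positivity), eventually_ge_atTop 2] with W hS hW2
    have hW1 : (1:ℝ) < W := by exact_mod_cast (by omega : 1 < W)
    have hlog : 0 < Real.log W := Real.log_pos hW1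
    have hq : 0 < (W:ℝ) / Real.log W := by positivity
    rw [Real.dist_eq, sub_zero, abs_of_nonneg (by positivity), div_lt_iff₀ hq]
    calc _ ≤ ε / 2 * W / Real.log W := hS
      _ = ε / 2 * (W / Real.log W) := by ring
      _ < ε * (W / Real.log W) := by nlinarith
  · exact ratio cyclicOrders prime_sub (fun W => (cyclic_sub W).trans (group_sub W))
  · exact ratio designOrders
      (fun W => (prime_sub W).trans ((cyclic_sub W).trans (group_sub W))) (fun _ => subset_rfl)

end Pool.Agent.Results.MP_76589c_co.RealisedOrdersPrime
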